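import Pool.Agent.Q217.DTCS.Rec

set_option autoImplicit false

open Finset Filter Topology

namespace Pool.Agent.Q217.DTCS

theorem hr_eq (n : ℕ) : hr n = ((harmonic n : ℚ) : ℝ) := by
  unfold hr harmonic
  push_cast
  refine Finset.sum_congr rfl fun i _ => ?_
  rw [one_div]

theorem log_le_hr (N : ℕ) : Real.log ((N : ℝ) + 2) ≤ hr (N + 1) := by
  rw [hr_eq]
  have := log_add_one_le_harmonic (N + 1)
  push_cast at this ⊢
  rw [show (N : ℝ) + 2 = N + 1 + 1 by ring]
  exact this

theorem hr_le (N : ℕ) : hr (N + 1) ≤ 1 + Real.log ((N : ℝ) + 2) := by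
  rw [hr_eq]
  have h1 := harmonic_le_one_add_log (N + 1)
  have h2 : Real.log ((N + 1 : ℕ) : ℝ) ≤ Real.log ((N : ℝ) + 2) :=
    Real.log_le_log (by positivity) (by push_cast; linarith)
  linarith

/-! ### elementary inequalities for the logarithm -/

theorem neg_log_ge {x : ℝ} (h0 : 0 ≤ x) (h1 : x < 1) : x + x ^ 2 / 2 ≤ -Real.log (1 - x) := by
  have h := Real.hasSum_pow_div_log_of_abs_lt_one (x := x) (by rw [abs_of_nonneg h0]; exact h1)
  have h2 := sum_le_hasSum (Finset.range 2) (fun i _ => by positivity) h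
  simp [Finset.sum_range_succ] at h2
  norm_num at h2
  linarith

theorem neg_log_le {x : ℝ} (h0 : 0 ≤ x) (h1 : x ≤ 1 / 2) :
    -Real.log (1 - x) ≤ x * (1 - x) * (1 + 4 * x) := by
  have h := Real.abs_log_sub_add_sum_range_le (x := x) (by rw [abs_of_nonneg h0]; linarith) 4
  rw [abs_of_nonneg h0] at h
  simp only [Finset.sum_range_succ, Finset.sum_range_zero] at h
  norm_num at h
  have h2 := (abs_le.mp h).1
  have h3 : x ^ 5 / (1 - x) ≤ 2 * x ^ 5 := by
    rw [div_le_iff₀ (by linarith)]
    have : 0 ≤ x ^ 5 := by positivity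
    nlinarith
  have hx2 : 0 ≤ x ^ 2 := by positivity
  have hx3 : 0 ≤ x ^ 3 := by positivity
  have h4 : x ^ 4 ≤ x ^ 3 / 2 := by nlinarith
  have h5 : x ^ 5 ≤ x ^ 3 / 4 := by nlinarith
  nlinarith

theorem log_sq_le {x : ℝ} (h0 : 0 ≤ x) (h1 : x < 1) :
    (Real.log (1 - x)) ^ 2 ≤ 16 * x ^ 2 / √(1 - x) := by
  set v := √(√(1 - x)) with hv
  have hs0 : 0 < √(1 - x) := Real.sqrt_pos.mpr (by linarith)
  have hv0 : 0 < v := Real.sqrt_pos.mpr hs0
  have hs1 : √(1 - x) ≤ 1 := Real.sqrt_le_one.mpr (by linarith)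
  have hv1 : v ≤ 1 := Real.sqrt_le_one.mpr hs1
  have e2 : v ^ 2 = √(1 - x) := Real.sq_sqrt hs0.le
  have e4 : v ^ 4 = 1 - x := by
    calc v ^ 4 = (v ^ 2) ^ 2 := by ring
      _ = √(1 - x) ^ 2 := by rw [e2]
      _ = 1 - x := Real.sq_sqrt (by linarith)
  have hlog : Real.log (1 - x) = 4 * Real.log v := by
    rw [← e4, Real.log_pow]
    norm_num
  have h2 : Real.log (1 / v) ≤ 1 / v - 1 := Real.log_le_sub_one_of_pos (by positivity)
  rw [Real.log_div one_ne_zero hv0.ne', Real.log_one, zero_sub] at h2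
  have h3 : 1 / v - 1 ≤ x / v := by
    rw [div_sub_one hv0.ne']
    refine div_le_div_of_nonneg_right ?_ hv0.le
    have : v ^ 4 ≤ v := by
      calc v ^ 4 ≤ v ^ 1 := pow_le_pow_of_le_one hv0.le hv1 (by norm_num)
        _ = v := pow_one v
    linarith
  have h4 : 0 ≤ -Real.log v := by
    have := Real.log_nonpos hv0.le hv1
    linarith
  have h5 : (-Real.log v) ^ 2 ≤ (x / v) ^ 2 := pow_le_pow_left₀ h4 (h2.trans h3) 2
  rw [hlog, ← e2]
  have e5 : (x / v) ^ 2 = x ^ 2 / v ^ 2 := by rw [div_pow]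
  rw [e5] at h5
  calc (4 * Real.log v) ^ 2 = 16 * (-Real.log v) ^ 2 := by ring
    _ ≤ 16 * (x ^ 2 / v ^ 2) := by linarith
    _ = 16 * x ^ 2 / v ^ 2 := by ring

theorem sum_inv_sqrt (n : ℕ) : ∑ a ∈ Finset.range n, 1 / √((a : ℝ) + 1) ≤ 2 * √n := by
  induction n with
  | zero => simp
  | succ n ih =>
    rw [Finset.sum_range_succ]
    have h1 : 1 / √((n : ℝ) + 1) ≤ 2 * √((n + 1 : ℕ) : ℝ) - 2 * √(n : ℝ) := by
      push_cast
      have s1 : 0 < √((n : ℝ) + 1) := Real.sqrt_pos.mpr (by positivity)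
      have s2 : 0 ≤ √(n : ℝ) := Real.sqrt_nonneg _
      have e1 : √((n : ℝ) + 1) ^ 2 = n + 1 := Real.sq_sqrt (by positivity)
      have e2 : √(n : ℝ) ^ 2 = n := Real.sq_sqrt (by positivity)
      rw [div_le_iff₀ s1]
      nlinarith [sq_nonneg (√((n : ℝ) + 1) - √(n : ℝ))]
    linarith

/-! ### upper bound for the mean leaf depth -/

theorem A_step (α : ℝ) (hα : 0 ≤ α) (C : ℝ) (N : ℕ)
    (hM : hr (N + 1) ≤ α * (2 * Real.log ((N : ℝ) + 2) * ((5 / 4) * ((N : ℝ) + 1) / (N + 2)) - 32))
    (ih : ∀ a ∈ Finset.range (N + 1), A a ≤ α * (Real.log ((a : ℝ) + 1)) ^ 2 + C) :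
    A (N + 1) ≤ α * (Real.log ((N : ℝ) + 2)) ^ 2 + C := by
  have hN0 : (0 : ℝ) ≤ N := Nat.cast_nonneg N
  set M : ℝ := (N : ℝ) + 2 with hMdef
  have hM0 : 0 < M := by positivity
  set L := Real.log M with hL
  have hL0 : 0 ≤ L := Real.log_nonneg (by rw [hMdef]; linarith)
  -- for each a
  have key : ∀ a ∈ Finset.range (N + 1),
      A a / ((N : ℝ) + 1 - a) ≤ (α * L ^ 2 + C) * (1 / ((N : ℝ) + 1 - a))
        - 2 * α * L * (1 / M + ((N : ℝ) + 1 - a) / (2 * M ^ 2))
        + α * (16 / √M * (1 / √((a : ℝ) + 1))) := by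
    intro a ha
    have h1 := ih a ha
    rw [Finset.mem_range] at ha
    have ha' : (a : ℝ) + 1 ≤ N + 1 := by exact_mod_cast ha
    set k : ℝ := (N : ℝ) + 1 - a with hk
    have hk1 : 1 ≤ k := by
      have : (a : ℝ) ≤ N := by linarith
      rw [hk]; linarith
    set x := k / M with hx
    have hx0 : 0 ≤ x := by positivity
    have hx1 : x < 1 := by
      rw [hx, div_lt_one hM0, hk, hMdef]
      have : (0 : ℝ) ≤ a := Nat.cast_nonneg a
      linarith
    have e1 : (a : ℝ) + 1 = M * (1 - x) := by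
      rw [hx]; field_simp; rw [hk, hMdef]; ring
    have e2 : Real.log ((a : ℝ) + 1) = L + Real.log (1 - x) := by
      rw [e1, Real.log_mul hM0.ne' (by linarith)]
    have h2 := neg_log_ge hx0 hx1
    have h3 := log_sq_le hx0 hx1
    have h4 : √(1 - x) = √((a : ℝ) + 1) / √M := by
      rw [← Real.sqrt_div (by positivity), e1]
      congr 1
      field_simp
    have hsM : 0 < √M := Real.sqrt_pos.mpr hM0
    have hsa : 0 < √((a : ℝ) + 1) := Real.sqrt_pos.mpr (by positivity)
    have hsM2 : √M ^ 2 = M := Real.sq_sqrt hM0.le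
    have h5 : (Real.log (1 - x)) ^ 2 / k ≤ 16 / √M * (1 / √((a : ℝ) + 1)) := by
      rw [div_le_iff₀ (by linarith)]
      refine h3.trans ?_
      rw [h4]
      have h6 : 16 * x ^ 2 / (√((a : ℝ) + 1) / √M) = 16 * (x * k) * √M / (M * √((a : ℝ) + 1)) := by
        rw [hx]; field_simp
      have h7 : 16 / √M * (1 / √((a : ℝ) + 1)) * k = 16 * k * √M / (M * √((a : ℝ) + 1)) := by
        rw [div_mul_div_comm, mul_one, div_mul_eq_mul_div, div_eq_div_iff (by positivity) (by positivity)]
        linear_combination (-(16 * k * √((a : ℝ) + 1))) * hsM2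
      rw [h6, h7]
      refine div_le_div_of_nonneg_right ?_ (by positivity)
      refine mul_le_mul_of_nonneg_right ?_ hsM.le
      nlinarith
    have h8 : A a ≤ α * (L + Real.log (1 - x)) ^ 2 + C := by rw [← e2]; exact h1
    have h9 : A a / k ≤ (α * (L + Real.log (1 - x)) ^ 2 + C) / k := div_le_div_of_nonneg_right h8 (by linarith)
    refine h9.trans ?_
    have e3 : (α * (L + Real.log (1 - x)) ^ 2 + C) / k = (α * L ^ 2 + C) * (1 / k)
        - 2 * α * L * (-Real.log (1 - x) / k) + α * ((Real.log (1 - x)) ^ 2 / k) := by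
      field_simp
      ring
    rw [e3]
    have h10 : 1 / M + k / (2 * M ^ 2) ≤ -Real.log (1 - x) / k := by
      rw [le_div_iff₀ (by linarith)]
      refine le_trans (le_of_eq ?_) h2
      rw [hx]; field_simp
    have h11 := mul_le_mul_of_nonneg_left h10 (by positivity : 0 ≤ 2 * α * L)
    have h12 := mul_le_mul_of_nonneg_left h5 hα
    linarith
  have hsum := Finset.sum_le_sum key
  have hh := hr_pos N
  -- evaluate the sums
  have s1 : ∑ a ∈ Finset.range (N + 1), (1 / ((N : ℝ) + 1 - a)) = hr (N + 1) := by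
    unfold hr
    rw [← Finset.sum_range_reflect]
    refine Finset.sum_congr rfl fun a ha => ?_
    rw [Finset.mem_range] at ha
    congr 1
    have : ((N + 1 - 1 - a : ℕ) : ℝ) = N - a := by
      rw [Nat.add_sub_cancel, Nat.cast_sub (by omega)]
    rw [this]
    ring
  have s2 : ∑ a ∈ Finset.range (N + 1), (1 / M + ((N : ℝ) + 1 - a) / (2 * M ^ 2)) =
      (5 / 4) * ((N : ℝ) + 1) / M := by
    have h1 : ∑ a ∈ Finset.range (N + 1), ((N : ℝ) + 1 - a) = ((N : ℝ) + 1) * (N + 2) / 2 := by
      rw [Finset.sum_sub_distrib, Finset.sum_const, Finset.card_range, nsmul_eq_mul]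
      have h2 : ∑ a ∈ Finset.range (N + 1), (a : ℝ) = ((N : ℝ) + 1) * N / 2 := by
        have h3 := Finset.sum_range_id_mul_two (N + 1)
        have h4 : ((∑ i ∈ Finset.range (N + 1), i : ℕ) : ℝ) * 2 = ((N + 1 : ℕ) : ℝ) * ((N + 1 - 1 : ℕ) : ℝ) := by
          exact_mod_cast h3
        rw [Nat.add_sub_cancel] at h4
        push_cast at h4
        linarith
      rw [h2]
      push_cast
      ring
    rw [Finset.sum_add_distrib, Finset.sum_const, Finset.card_range, nsmul_eq_mul, ← Finset.sum_div, h1]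
    push_cast
    rw [hMdef]
    field_simp
    ring
  have s3 : ∑ a ∈ Finset.range (N + 1), (16 / √M * (1 / √((a : ℝ) + 1))) ≤ 32 := by
    rw [← Finset.mul_sum]
    have h1 := sum_inv_sqrt (N + 1)
    have hsM : 0 < √M := Real.sqrt_pos.mpr hM0
    have h2 : √((N + 1 : ℕ) : ℝ) ≤ √M := Real.sqrt_le_sqrt (by push_cast; linarith)
    calc 16 / √M * ∑ a ∈ Finset.range (N + 1), (1 / √((a : ℝ) + 1)) ≤ 16 / √M * (2 * √M) :=
          mul_le_mul_of_nonneg_left (by linarith) (by positivity)
      _ = 32 := by field_simp; norm_num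
  rw [A_succ]
  have hsum2 : ∑ a ∈ Finset.range (N + 1), A a / ((N : ℝ) + 1 - a) ≤
      (α * L ^ 2 + C) * hr (N + 1) - 2 * α * L * ((5 / 4) * ((N : ℝ) + 1) / M) + α * 32 := by
    refine hsum.trans ?_
    rw [Finset.sum_add_distrib, Finset.sum_sub_distrib, ← Finset.mul_sum, ← Finset.mul_sum,
      ← Finset.mul_sum, s1, s2]
    have := mul_le_mul_of_nonneg_left s3 hα
    linarith
  have h13 : (1 / hr (N + 1)) * ∑ a ∈ Finset.range (N + 1), A a / ((N : ℝ) + 1 - a) ≤
      (1 / hr (N + 1)) * ((α * L ^ 2 + C) * hr (N + 1) - hr (N + 1)) := by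
    refine mul_le_mul_of_nonneg_left ?_ (by positivity)
    refine hsum2.trans ?_
    have : hr (N + 1) ≤ α * (2 * L * ((5 / 4) * ((N : ℝ) + 1) / M) - 32) := hM
    linarith
  have h14 : (1 / hr (N + 1)) * ((α * L ^ 2 + C) * hr (N + 1) - hr (N + 1)) = α * L ^ 2 + C - 1 := by
    field_simp
  linarith

theorem A_nonneg (N : ℕ) : 0 ≤ A N := by
  induction N using Nat.strong_induction_on with
  | _ N ih =>
    cases N with
    | zero => rw [A_zero]
    | succ N =>
      rw [A_succ]
      have h1 : 0 ≤ ∑ a ∈ Finset.range (N + 1), A a / ((N : ℝ) + 1 - a) := by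
        refine Finset.sum_nonneg fun a ha => ?_
        rw [Finset.mem_range] at ha
        have : (a : ℝ) ≤ N := by exact_mod_cast (by omega : a ≤ N)
        exact div_nonneg (ih a (by omega)) (by linarith)
      have := hr_pos N
      positivity

theorem A_upper : ∃ C : ℝ, ∀ N : ℕ, A N ≤ (9 / 20) * (Real.log ((N : ℝ) + 1)) ^ 2 + C := by
  -- threshold
  have hT : Tendsto (fun N : ℕ => Real.log ((N : ℝ) + 2)) atTop atTop :=
    Real.tendsto_log_atTop.comp (tendsto_atTop_add_const_right _ _ tendsto_natCast_atTop_atTop)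
  obtain ⟨N0, hN0⟩ := (tendsto_atTop.mp hT 140).exists_forall_of_atTop
  refine ⟨∑ a ∈ Finset.range (N0 + 1), A a, fun N => ?_⟩
  set C := ∑ a ∈ Finset.range (N0 + 1), A a with hC
  induction N using Nat.strong_induction_on with
  | _ N ih =>
    by_cases hN : N < N0 + 1
    · have h1 : A N ≤ C := Finset.single_le_sum (f := A) (fun a _ => A_nonneg a) (Finset.mem_range.mpr hN)
      have h2 : 0 ≤ (9 / 20) * (Real.log ((N : ℝ) + 1)) ^ 2 := by positivity
      linarith
    · obtain ⟨n, rfl⟩ := Nat.exists_eq_add_of_le (show 1 ≤ N by omega)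
      rw [add_comm 1 n] at *
      have hn : N0 ≤ n := by omega
      have h3 := hN0 n hn
      have h4 := A_step (9 / 20) (by norm_num) C n ?_ (fun a ha => ih a (by
        rw [Finset.mem_range] at ha; omega))
      · push_cast
        rw [show (n : ℝ) + 1 + 1 = n + 2 by ring]
        exact h4
      · refine (hr_le n).trans ?_
        have h5 : Real.log ((n : ℝ) + 2) ≤ n + 2 := by
          have := Real.log_le_sub_one_of_pos (show (0 : ℝ) < (n : ℝ) + 2 by positivity)
          linarith
        have h6 : (5 / 4 : ℝ) * ((n : ℝ) + 1) / (n + 2) = 5 / 4 - (5 / 4) / (n + 2) := by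
          field_simp
          ring
        rw [h6]
        set L := Real.log ((n : ℝ) + 2) with hL
        have h7 : L * ((5 / 4) / ((n : ℝ) + 2)) ≤ 5 / 4 := by
          rw [← mul_div_assoc, div_le_iff₀ (by positivity)]
          linarith
        nlinarith

/-! ### bounds for the greedy path -/

theorem sum_min (N : ℕ) : (∑ a ∈ Finset.range (N + 1), (min (a + 1) (N - a + 1) : ℕ)) * 4 ≤ (N + 2) ^ 2 := by
  induction N using Nat.twoStepInduction with
  | zero => simp
  | one => simp [Finset.sum_range_succ]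
  | more n ih _ =>
    rw [Finset.sum_range_succ, Finset.sum_range_succ']
    have h1 : ∑ k ∈ Finset.range (n + 1), min (k + 1 + 1) (n + 2 - (k + 1) + 1) =
        ∑ k ∈ Finset.range (n + 1), (min (k + 1) (n - k + 1) + 1) := by
      refine Finset.sum_congr rfl fun k hk => ?_
      rw [Finset.mem_range] at hk
      omega
    rw [h1, Finset.sum_add_distrib, Finset.sum_const, Finset.card_range]
    simp only [smul_eq_mul, mul_one]
    have h2 : min (0 + 1) (n + 2 - 0 + 1) = 1 := by omega
    have h3 : min (n + 2 + 1) (n + 2 - (n + 2) + 1) = 1 := by omega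
    rw [h2, h3]
    nlinarith

/-- the size-`j` part split off at a split of a clade of size `N + 2` -/
theorem pair_facts {N a b : ℕ} (h : a + b = N) :
    ∃ x : ℝ, x = ((min (a + 1) (b + 1) : ℕ) : ℝ) / ((N : ℝ) + 2) ∧ 0 < x ∧ x ≤ 1 / 2 ∧
      ((max a b : ℕ) : ℝ) + 1 = ((N : ℝ) + 2) * (1 - x) ∧
      q (N + 2) (a + 1) = (1 / (2 * hr (N + 1) * ((N : ℝ) + 2))) * (1 / (x * (1 - x))) := by
  have hN : (N : ℝ) = a + b := by rw [← h]; push_cast; ring
  have hh := (hr_pos N).ne'
  refine ⟨_, rfl, by positivity, ?_, ?_, ?_⟩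
  · rw [div_le_div_iff₀ (by positivity) (by norm_num)]
    have : 2 * min (a + 1) (b + 1) ≤ N + 2 := by omega
    have h2 : (2 : ℝ) * ((min (a + 1) (b + 1) : ℕ) : ℝ) ≤ N + 2 := by exact_mod_cast this
    linarith
  · have h2 : max a b + 1 + min (a + 1) (b + 1) = N + 2 := by omega
    have h3 : ((max a b : ℕ) : ℝ) + 1 + ((min (a + 1) (b + 1) : ℕ) : ℝ) = N + 2 := by exact_mod_cast h2
    have h4 : ((N : ℝ) + 2) ≠ 0 := by positivity
    field_simp
    linarith
  · have h5 : ((a : ℝ) + 1) ≠ 0 := by positivity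
    have h6 : ((b : ℝ) + 1) ≠ 0 := by positivity
    have h7 : ((N : ℝ) + 2) ≠ 0 := by positivity
    rw [q_eq h]
    rcases le_total a b with hab | hab
    · have e : min (a + 1) (b + 1) = a + 1 := by omega
      rw [e]
      push_cast
      have e2 : 1 - ((a : ℝ) + 1) / (N + 2) = (b + 1) / (N + 2) := by
        rw [hN] at h7 ⊢
        field_simp
        ring
      rw [e2]
      field_simp
      rw [hN]
      ring
    · have e : min (a + 1) (b + 1) = b + 1 := by omega
      rw [e]
      push_cast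
      have e2 : 1 - ((b : ℝ) + 1) / (N + 2) = (a + 1) / (N + 2) := by
        rw [hN] at h7 ⊢
        field_simp
        ring
      rw [e2]
      field_simp
      rw [hN]
      ring

theorem B_lower (N : ℕ) : (1 / 2) * (Real.log ((N : ℝ) + 1)) ^ 2 ≤ B N := by
  induction N using Nat.strong_induction_on with
  | _ N ih =>
    cases N with
    | zero => rw [B_zero]; simp
    | succ N =>
      have hN0 : (0 : ℝ) ≤ N := Nat.cast_nonneg N
      set M : ℝ := (N : ℝ) + 2 with hM
      have hM0 : 0 < M := by positivity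
      set L := Real.log M with hL
      have hL0 : 0 ≤ L := Real.log_nonneg (by rw [hM]; linarith)
      have hh := hr_pos N
      have key : ∀ ij ∈ HasAntidiagonal.antidiagonal N, q (N + 2) (ij.1 + 1) * ((1 / 2) * L ^ 2)
          - L * ((1 / (2 * hr (N + 1) * M)) * (1 + 4 * (((min (ij.1 + 1) (ij.2 + 1) : ℕ) : ℝ) / M)))
          ≤ q (N + 2) (ij.1 + 1) * B (max ij.1 ij.2) := by
        intro ij hij
        rw [HasAntidiagonal.mem_antidiagonal] at hij
        obtain ⟨x, hx, hx0, hx1, hmax, hq⟩ := pair_facts hij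
        have h1 := ih (max ij.1 ij.2) (by omega)
        rw [hmax, Real.log_mul hM0.ne' (by linarith)] at h1
        have h2 := neg_log_le hx0.le hx1
        have hq0 : 0 < q (N + 2) (ij.1 + 1) := by
          rw [hq]
          have : 0 < 1 - x := by linarith
          positivity
        have h3 : q (N + 2) (ij.1 + 1) * (-Real.log (1 - x)) ≤
            (1 / (2 * hr (N + 1) * M)) * (1 + 4 * x) := by
          rw [hq]
          have h4 : 0 < x * (1 - x) := by
            have : 0 < 1 - x := by linarith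
            positivity
          calc (1 / (2 * hr (N + 1) * M)) * (1 / (x * (1 - x))) * (-Real.log (1 - x))
              ≤ (1 / (2 * hr (N + 1) * M)) * (1 / (x * (1 - x))) * (x * (1 - x) * (1 + 4 * x)) :=
                mul_le_mul_of_nonneg_left h2 (by positivity)
            _ = _ := by
                have hx' : 1 - x ≠ 0 := by linarith
                field_simp
        rw [← hx]
        have h5 : q (N + 2) (ij.1 + 1) * ((1 / 2) * L ^ 2 + L * Real.log (1 - x)) ≤
            q (N + 2) (ij.1 + 1) * B (max ij.1 ij.2) := by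
          refine mul_le_mul_of_nonneg_left ?_ hq0.le
          nlinarith [sq_nonneg (Real.log (1 - x))]
        have h6 := mul_le_mul_of_nonneg_left h3 hL0
        linarith
      have hsum := Finset.sum_le_sum key
      rw [Finset.sum_sub_distrib, ← Finset.sum_mul, q_sum, one_mul, ← Finset.mul_sum, ← Finset.mul_sum,
        Finset.sum_add_distrib, ← Finset.mul_sum, ← Finset.sum_div] at hsum
      have hmin : ∑ ij ∈ HasAntidiagonal.antidiagonal N, ((min (ij.1 + 1) (ij.2 + 1) : ℕ) : ℝ) ≤ M ^ 2 / 4 := by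
        have h1 : ∑ ij ∈ HasAntidiagonal.antidiagonal N, (min (ij.1 + 1) (ij.2 + 1) : ℕ) =
            ∑ a ∈ Finset.range (N + 1), (min (a + 1) (N - a + 1) : ℕ) :=
          Finset.Nat.sum_antidiagonal_eq_sum_range_succ_mk (fun ij => min (ij.1 + 1) (ij.2 + 1)) N
        have h2 := sum_min N
        rw [← h1] at h2
        have h3 : ((∑ ij ∈ HasAntidiagonal.antidiagonal N, (min (ij.1 + 1) (ij.2 + 1) : ℕ) : ℕ) : ℝ) * 4
            ≤ ((N : ℝ) + 2) ^ 2 := by exact_mod_cast h2
        push_cast at h3 ⊢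
        linarith
      have hcard : ∑ _ij ∈ HasAntidiagonal.antidiagonal N, (1 : ℝ) = N + 1 := by
        rw [Finset.sum_const, Finset.Nat.card_antidiagonal, nsmul_eq_mul]
        push_cast
        ring
      rw [hcard] at hsum
      have hLh : L ≤ hr (N + 1) := log_le_hr N
      have h7 : L * (1 / (2 * hr (N + 1) * M) * ((N : ℝ) + 1 + 4 *
          ((∑ ij ∈ HasAntidiagonal.antidiagonal N, ((min (ij.1 + 1) (ij.2 + 1) : ℕ) : ℝ)) / M))) ≤ 1 := by
        have h8 : (N : ℝ) + 1 + 4 *
          ((∑ ij ∈ HasAntidiagonal.antidiagonal N, ((min (ij.1 + 1) (ij.2 + 1) : ℕ) : ℝ)) / M) ≤ 2 * M := by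
          have h9 : 4 * ((∑ ij ∈ HasAntidiagonal.antidiagonal N, ((min (ij.1 + 1) (ij.2 + 1) : ℕ) : ℝ)) / M)
              ≤ 4 * ((M ^ 2 / 4) / M) :=
            mul_le_mul_of_nonneg_left (div_le_div_of_nonneg_right hmin hM0.le) (by norm_num)
          have h10 : 4 * ((M ^ 2 / 4) / M) = M := by field_simp
          rw [h10] at h9
          linarith
        calc _ ≤ L * (1 / (2 * hr (N + 1) * M) * (2 * M)) :=
              mul_le_mul_of_nonneg_left (mul_le_mul_of_nonneg_left h8 (by positivity)) hL0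
          _ = L / hr (N + 1) := by field_simp
          _ ≤ 1 := by rw [div_le_one hh]; exact hLh
      rw [B_succ]
      push_cast
      rw [show (N : ℝ) + 1 + 1 = M by rw [hM]; ring]
      linarith

theorem B_upper (N : ℕ) : B N ≤ 10 * (Real.log ((N : ℝ) + 1)) ^ 2 := by
  induction N using Nat.strong_induction_on with
  | _ N ih =>
    cases N with
    | zero => rw [B_zero]; simp
    | succ N =>
      have hN0 : (0 : ℝ) ≤ N := Nat.cast_nonneg N
      set M : ℝ := (N : ℝ) + 2 with hM
      have hM0 : 0 < M := by positivity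
      set L := Real.log M with hL
      have hL2 : Real.log 2 ≤ L := Real.log_le_log (by norm_num) (by rw [hM]; linarith)
      have hlog2 := Real.log_two_gt_d9
      have hL0 : 0 < L := by linarith
      have hh := hr_pos N
      have key : ∀ ij ∈ HasAntidiagonal.antidiagonal N, q (N + 2) (ij.1 + 1) * B (max ij.1 ij.2) ≤
          q (N + 2) (ij.1 + 1) * (10 * L ^ 2) - 10 * L * (1 / (2 * hr (N + 1) * M)) := by
        intro ij hij
        rw [HasAntidiagonal.mem_antidiagonal] at hij
        obtain ⟨x, hx, hx0, hx1, hmax, hq⟩ := pair_facts hij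
        have h1 := ih (max ij.1 ij.2) (by omega)
        have h0 : 0 ≤ Real.log (((max ij.1 ij.2 : ℕ) : ℝ) + 1) := Real.log_nonneg (by
          have : (0 : ℝ) ≤ ((max ij.1 ij.2 : ℕ) : ℝ) := Nat.cast_nonneg _
          linarith)
        rw [hmax, Real.log_mul hM0.ne' (by linarith)] at h1 h0
        have h2 := neg_log_ge hx0.le (by linarith)
        have hx' : 0 < 1 - x := by linarith
        have hq0 : 0 < q (N + 2) (ij.1 + 1) := by
          rw [hq]
          positivity
        have h3 : (1 / (2 * hr (N + 1) * M)) ≤ q (N + 2) (ij.1 + 1) * x := by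
          rw [hq]
          have e : 1 / (2 * hr (N + 1) * M) * (1 / (x * (1 - x))) * x = (1 / (2 * hr (N + 1) * M)) * (1 / (1 - x)) := by
            field_simp
          rw [← hM, e]
          have h4 : 1 ≤ 1 / (1 - x) := by
            rw [le_div_iff₀ hx']
            linarith
          calc 1 / (2 * hr (N + 1) * M) = 1 / (2 * hr (N + 1) * M) * 1 := (mul_one _).symm
            _ ≤ _ := mul_le_mul_of_nonneg_left h4 (by positivity)
        have h5 : B (max ij.1 ij.2) ≤ 10 * L ^ 2 - 10 * L * x := by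
          refine h1.trans ?_
          set w := Real.log (1 - x)
          have h6 : w ≤ -x := by nlinarith [sq_nonneg x]
          nlinarith
        have h6 := mul_le_mul_of_nonneg_left h5 hq0.le
        have h7 := mul_le_mul_of_nonneg_left h3 (by positivity : 0 ≤ 10 * L)
        linarith
      have hsum := Finset.sum_le_sum key
      rw [Finset.sum_sub_distrib, ← Finset.sum_mul, q_sum, one_mul, Finset.sum_const,
        Finset.Nat.card_antidiagonal, nsmul_eq_mul] at hsum
      rw [B_succ]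
      push_cast at hsum ⊢
      rw [show (N : ℝ) + 1 + 1 = M by rw [hM]; ring]
      have h8 : 1 ≤ ((N : ℝ) + 1) * (10 * L * (1 / (2 * hr (N + 1) * M))) := by
        have e : ((N : ℝ) + 1) * (10 * L * (1 / (2 * hr (N + 1) * M))) =
            (5 * L * ((N : ℝ) + 1)) / (hr (N + 1) * M) := by
          field_simp
          ring
        rw [e, le_div_iff₀ (by positivity), one_mul]
        have h9 := hr_le N
        rw [← hM, ← hL] at h9
        have h10 : hr (N + 1) ≤ (5 / 2) * L := by linarith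
        have h11 : M ≤ 2 * ((N : ℝ) + 1) := by rw [hM]; linarith
        calc hr (N + 1) * M ≤ ((5 / 2) * L) * (2 * ((N : ℝ) + 1)) :=
              mul_le_mul h10 h11 hM0.le (by positivity)
          _ = _ := by ring
      linarith

end Pool.Agent.Q217.DTCS
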