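import Mathlib

set_option autoImplicit false

open Finset BinaryTree

namespace Pool.Agent.Q217.DTCS

/-- harmonic numbers `h_n` -/
noncomputable def hr (n : ℕ) : ℝ := ∑ j ∈ Finset.range n, 1 / ((j : ℝ) + 1)

/-- splitting probabilities -/
noncomputable def q (m i : ℕ) : ℝ := (m : ℝ) / (2 * hr (m - 1) * ((i : ℝ) * ((m : ℝ) - i)))

/-- weight of a tree -/
noncomputable def weight : BinaryTree Unit → ℝ
  | nil => 1
  | node _ l r => q (numLeaves l + numLeaves r) (numLeaves l) * weight l * weight r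

/-- expectation over trees with `N` internal nodes -/
noncomputable def ex (N : ℕ) (f : BinaryTree Unit → ℝ) : ℝ :=
  ∑ t ∈ treesOfNumNodesEq N, weight t * f t

theorem ex_zero (f : BinaryTree Unit → ℝ) : ex 0 f = f nil := by
  simp [ex, weight]

theorem ex_succ (N : ℕ) (f : BinaryTree Unit → ℝ) :
    ex (N + 1) f = ∑ ij ∈ HasAntidiagonal.antidiagonal N, q (N + 2) (ij.1 + 1) *
      ∑ l ∈ treesOfNumNodesEq ij.1, ∑ r ∈ treesOfNumNodesEq ij.2,
        weight l * weight r * f (node () l r) := by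
  unfold ex
  rw [treesOfNumNodesEq_succ, Finset.sum_biUnion]
  · refine Finset.sum_congr rfl fun ij hij => ?_
    rw [HasAntidiagonal.mem_antidiagonal] at hij
    unfold pairwiseNode
    rw [Finset.sum_map, Finset.sum_product, Finset.mul_sum]
    refine Finset.sum_congr rfl fun l hl => ?_
    rw [Finset.mul_sum]
    refine Finset.sum_congr rfl fun r hr => ?_
    rw [mem_treesOfNumNodesEq] at hl hr
    simp only [Function.Embedding.coeFn_mk, weight]
    have h1 : numLeaves l = ij.1 + 1 := by rw [numLeaves_eq_numNodes_succ, hl]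
    have h2 : numLeaves r = ij.2 + 1 := by rw [numLeaves_eq_numNodes_succ, hr]
    rw [h1, h2]
    have h3 : ij.1 + 1 + (ij.2 + 1) = N + 2 := by omega
    rw [h3]
    ring
  · intro a ha b hb hab
    rw [Function.onFun, Finset.disjoint_left]
    intro t ht1 ht2
    apply hab
    unfold pairwiseNode at ht1 ht2
    rw [Finset.mem_map] at ht1 ht2
    obtain ⟨⟨l1, r1⟩, h1, rfl⟩ := ht1
    obtain ⟨⟨l2, r2⟩, h2, h3⟩ := ht2
    simp only [Function.Embedding.coeFn_mk, Finset.mem_product, mem_treesOfNumNodesEq] at h1 h2 h3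
    have h4 : l2 = l1 ∧ r2 = r1 := by simpa using h3
    ext
    · rw [← h1.1, ← h2.1, h4.1]
    · rw [← h1.2, ← h2.2, h4.2]

theorem double_sum (a b : ℕ) (F : BinaryTree Unit → ℝ) (G : BinaryTree Unit → ℝ) (c : ℝ) :
    ∑ l ∈ treesOfNumNodesEq a, ∑ r ∈ treesOfNumNodesEq b, weight l * weight r * (F l + G r + c) =
      ex a F * ex b (fun _ => 1) + ex a (fun _ => 1) * ex b G + c * (ex a (fun _ => 1) * ex b (fun _ => 1)) := by
  unfold ex
  simp only [Finset.sum_mul_sum, mul_one]
  rw [Finset.mul_sum, ← Finset.sum_add_distrib, ← Finset.sum_add_distrib]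
  refine Finset.sum_congr rfl fun l _ => ?_
  rw [Finset.mul_sum, ← Finset.sum_add_distrib, ← Finset.sum_add_distrib]
  refine Finset.sum_congr rfl fun r _ => ?_
  ring

theorem hr_succ (n : ℕ) : hr (n + 1) = hr n + 1 / ((n : ℝ) + 1) := Finset.sum_range_succ _ _

theorem hr_pos (n : ℕ) : 0 < hr (n + 1) := by
  unfold hr
  refine Finset.sum_pos (fun j _ => by positivity) ⟨0, by simp⟩

theorem q_symm {N a b : ℕ} (h : a + b = N) : q (N + 2) (a + 1) = q (N + 2) (b + 1) := by
  unfold q
  have h1 : ((N + 2 : ℕ) : ℝ) = a + b + 2 := by rw [← h]; push_cast; ring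
  rw [h1]
  push_cast
  congr 2
  ring

theorem q_eq {N a b : ℕ} (h : a + b = N) :
    q (N + 2) (a + 1) = (1 / (2 * hr (N + 1))) * (1 / ((a : ℝ) + 1) + 1 / ((b : ℝ) + 1)) := by
  unfold q
  have h1 : ((N + 2 : ℕ) : ℝ) = a + b + 2 := by rw [← h]; push_cast; ring
  have h2 : N + 2 - 1 = N + 1 := by omega
  rw [h1, h2]
  have h3 := (hr_pos N).ne'
  push_cast
  have h4 : (a : ℝ) + b + 2 - (a + 1) = b + 1 := by ring
  rw [h4]
  have h5 : ((a : ℝ) + 1) ≠ 0 := by positivity
  have h6 : ((b : ℝ) + 1) ≠ 0 := by positivity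
  field_simp
  ring

theorem sum_anti_fst (N : ℕ) (f : ℕ → ℝ) :
    ∑ ij ∈ HasAntidiagonal.antidiagonal N, f ij.1 = ∑ a ∈ Finset.range (N + 1), f a :=
  Finset.Nat.sum_antidiagonal_eq_sum_range_succ_mk (fun ij => f ij.1) N

theorem sum_anti_snd (N : ℕ) (f : ℕ → ℝ) :
    ∑ ij ∈ HasAntidiagonal.antidiagonal N, f ij.2 = ∑ a ∈ Finset.range (N + 1), f a := by
  rw [← Finset.Nat.sum_antidiagonal_swap]
  exact sum_anti_fst N f

theorem q_sum (N : ℕ) : ∑ ij ∈ HasAntidiagonal.antidiagonal N, q (N + 2) (ij.1 + 1) = 1 := by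
  have h1 : ∑ ij ∈ HasAntidiagonal.antidiagonal N, q (N + 2) (ij.1 + 1) =
      ∑ ij ∈ HasAntidiagonal.antidiagonal N,
        (1 / (2 * hr (N + 1))) * (1 / ((ij.1 : ℝ) + 1) + 1 / ((ij.2 : ℝ) + 1)) := by
    refine Finset.sum_congr rfl fun ij hij => ?_
    exact q_eq (HasAntidiagonal.mem_antidiagonal.mp hij)
  rw [h1, ← Finset.mul_sum, Finset.sum_add_distrib, sum_anti_fst N (fun a => 1 / ((a : ℝ) + 1)),
    sum_anti_snd N (fun a => 1 / ((a : ℝ) + 1))]
  have h2 : ∑ a ∈ Finset.range (N + 1), 1 / ((a : ℝ) + 1) = hr (N + 1) := rfl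
  rw [h2]
  have h3 := (hr_pos N).ne'
  field_simp
  ring

theorem ex_one (N : ℕ) : ex N (fun _ => 1) = 1 := by
  induction N using Nat.strong_induction_on with
  | _ N ih =>
    cases N with
    | zero => rw [ex_zero]
    | succ N =>
      rw [ex_succ]
      refine Eq.trans (Finset.sum_congr rfl fun ij hij => ?_) (q_sum N)
      rw [HasAntidiagonal.mem_antidiagonal] at hij
      have h := double_sum ij.1 ij.2 (fun _ => 0) (fun _ => 0) 1
      simp only [zero_add] at h
      rw [h]
      have h0 : ∀ M, ex M (fun _ => 0) = 0 := fun M => by simp [ex]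
      rw [h0, h0, ih ij.1 (by omega), ih ij.2 (by omega)]
      ring

/-- sum of the depths of the leaves -/
def leafDepthSum : BinaryTree Unit → ℕ
  | nil => 0
  | node _ l r => (leafDepthSum l + numLeaves l) + (leafDepthSum r + numLeaves r)

/-- depth of a uniformly random leaf, averaged -/
noncomputable def meanDepth (t : BinaryTree Unit) : ℝ := (leafDepthSum t : ℝ) / numLeaves t

/-- length of the greedy path (averaged over the fair coins used for ties) -/
noncomputable def greedy : BinaryTree Unit → ℝ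
  | nil => 0
  | node _ l r =>
    1 + (if numLeaves r < numLeaves l then greedy l
      else if numLeaves l < numLeaves r then greedy r
      else (greedy l + greedy r) / 2)

noncomputable def A (N : ℕ) : ℝ := ex N meanDepth

noncomputable def B (N : ℕ) : ℝ := ex N greedy

theorem A_zero : A 0 = 0 := by
  unfold A
  rw [ex_zero]
  simp [meanDepth, leafDepthSum]

theorem B_zero : B 0 = 0 := by
  unfold B
  rw [ex_zero]
  rfl

theorem ex_mul (N : ℕ) (c : ℝ) (f : BinaryTree Unit → ℝ) : ex N (fun t => c * f t) = c * ex N f := by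
  unfold ex
  rw [Finset.mul_sum]
  refine Finset.sum_congr rfl fun t _ => ?_
  ring

theorem A_succ (N : ℕ) :
    A (N + 1) = 1 + (1 / hr (N + 1)) * ∑ a ∈ Finset.range (N + 1), A a / ((N : ℝ) + 1 - a) := by
  have h1 : A (N + 1) = ∑ ij ∈ HasAntidiagonal.antidiagonal N, q (N + 2) (ij.1 + 1) *
      ((((ij.1 : ℝ) + 1) / (N + 2)) * A ij.1 + (((ij.2 : ℝ) + 1) / (N + 2)) * A ij.2 + 1) := by
    unfold A
    rw [ex_succ]
    refine Finset.sum_congr rfl fun ij hij => ?_
    rw [HasAntidiagonal.mem_antidiagonal] at hij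
    congr 1
    have h := double_sum ij.1 ij.2 (fun t => (((ij.1 : ℝ) + 1) / (N + 2)) * meanDepth t)
      (fun t => (((ij.2 : ℝ) + 1) / (N + 2)) * meanDepth t) 1
    rw [ex_mul, ex_mul, ex_one, ex_one] at h
    rw [show (((ij.1 : ℝ) + 1) / (N + 2)) * ex ij.1 meanDepth + (((ij.2 : ℝ) + 1) / (N + 2)) * ex ij.2 meanDepth + 1
      = (((ij.1 : ℝ) + 1) / (N + 2)) * ex ij.1 meanDepth * 1 + 1 * ((((ij.2 : ℝ) + 1) / (N + 2)) * ex ij.2 meanDepth)
        + 1 * (1 * 1) by ring, ← h]
    refine Finset.sum_congr rfl fun l hl => Finset.sum_congr rfl fun r hr => ?_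
    rw [mem_treesOfNumNodesEq] at hl hr
    congr 1
    unfold meanDepth
    have e1 : (numLeaves l : ℝ) = ij.1 + 1 := by
      rw [numLeaves_eq_numNodes_succ, hl]; push_cast; ring
    have e2 : (numLeaves r : ℝ) = ij.2 + 1 := by
      rw [numLeaves_eq_numNodes_succ, hr]; push_cast; ring
    simp only [leafDepthSum, numLeaves]
    push_cast
    rw [e1, e2]
    have e3 : (N : ℝ) = ij.1 + ij.2 := by rw [← hij]; push_cast; ring
    rw [e3]
    have e4 : ((ij.1 : ℝ) + 1) ≠ 0 := by positivity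
    have e5 : ((ij.2 : ℝ) + 1) ≠ 0 := by positivity
    have e6 : ((ij.1 : ℝ) + 1 + (ij.2 + 1)) ≠ 0 := by positivity
    have e7 : ((ij.1 : ℝ) + ij.2 + 2) ≠ 0 := by positivity
    field_simp
    ring
  have hN : ((N : ℝ) + 2) ≠ 0 := by positivity
  have hh := (hr_pos N).ne'
  -- split the sum
  have h2 : A (N + 1) = 1 + ∑ ij ∈ HasAntidiagonal.antidiagonal N,
        q (N + 2) (ij.1 + 1) * ((((ij.1 : ℝ) + 1) / (N + 2)) * A ij.1)
      + ∑ ij ∈ HasAntidiagonal.antidiagonal N,
        q (N + 2) (ij.2 + 1) * ((((ij.2 : ℝ) + 1) / (N + 2)) * A ij.2) := by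
    have h9 : ∑ ij ∈ HasAntidiagonal.antidiagonal N, (q (N + 2) (ij.1 + 1) +
        q (N + 2) (ij.1 + 1) * ((((ij.1 : ℝ) + 1) / (N + 2)) * A ij.1) +
        q (N + 2) (ij.2 + 1) * ((((ij.2 : ℝ) + 1) / (N + 2)) * A ij.2)) = A (N + 1) := by
      rw [h1]
      refine Finset.sum_congr rfl fun ij hij => ?_
      rw [← q_symm (HasAntidiagonal.mem_antidiagonal.mp hij)]
      ring
    rw [Finset.sum_add_distrib, Finset.sum_add_distrib, q_sum] at h9
    exact h9.symm
  have h3 : ∀ a ∈ Finset.range (N + 1), q (N + 2) (a + 1) * ((((a : ℝ) + 1) / (N + 2)) * A a) =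
      (1 / (2 * hr (N + 1))) * (A a / ((N : ℝ) + 1 - a)) := by
    intro a ha
    rw [Finset.mem_range] at ha
    obtain ⟨b, hb⟩ := Nat.exists_eq_add_of_le (show a ≤ N by omega)
    rw [q_eq hb.symm]
    have e3 : (N : ℝ) = a + b := by rw [hb]; push_cast; ring
    rw [e3]
    have e4 : ((a : ℝ) + 1) ≠ 0 := by positivity
    have e5 : ((b : ℝ) + 1) ≠ 0 := by positivity
    have e7 : ((a : ℝ) + b + 2) ≠ 0 := by positivity
    have e8 : (a : ℝ) + b + 1 - a = b + 1 := by ring
    rw [e8]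
    field_simp
    ring
  rw [h2, sum_anti_fst N (fun a => q (N + 2) (a + 1) * ((((a : ℝ) + 1) / (N + 2)) * A a)),
    sum_anti_snd N (fun a => q (N + 2) (a + 1) * ((((a : ℝ) + 1) / (N + 2)) * A a)),
    Finset.sum_congr rfl h3, ← Finset.mul_sum]
  field_simp
  ring

theorem B_succ (N : ℕ) :
    B (N + 1) = 1 + ∑ ij ∈ HasAntidiagonal.antidiagonal N, q (N + 2) (ij.1 + 1) * B (max ij.1 ij.2) := by
  have h1 : B (N + 1) = ∑ ij ∈ HasAntidiagonal.antidiagonal N, q (N + 2) (ij.1 + 1) *
      (B (max ij.1 ij.2) + 1) := by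
    unfold B
    rw [ex_succ]
    refine Finset.sum_congr rfl fun ij hij => ?_
    rw [HasAntidiagonal.mem_antidiagonal] at hij
    congr 1
    have hval : ∀ l ∈ treesOfNumNodesEq ij.1, ∀ r ∈ treesOfNumNodesEq ij.2,
        greedy (node () l r) = (if ij.2 < ij.1 then greedy l else if ij.1 < ij.2 then 0 else greedy l / 2)
          + (if ij.2 < ij.1 then 0 else if ij.1 < ij.2 then greedy r else greedy r / 2) + 1 := by
      intro l hl r hr
      rw [mem_treesOfNumNodesEq] at hl hr
      have e1 : numLeaves l = ij.1 + 1 := by rw [numLeaves_eq_numNodes_succ, hl]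
      have e2 : numLeaves r = ij.2 + 1 := by rw [numLeaves_eq_numNodes_succ, hr]
      simp only [greedy, e1, e2, Nat.add_lt_add_iff_right]
      split_ifs <;> ring
    have h := double_sum ij.1 ij.2
      (fun l => if ij.2 < ij.1 then greedy l else if ij.1 < ij.2 then 0 else greedy l / 2)
      (fun r => if ij.2 < ij.1 then 0 else if ij.1 < ij.2 then greedy r else greedy r / 2) 1
    rw [ex_one, ex_one] at h
    have h' : ∑ l ∈ treesOfNumNodesEq ij.1, ∑ r ∈ treesOfNumNodesEq ij.2,
        weight l * weight r * greedy (node () l r) = _ :=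
      (Finset.sum_congr rfl fun l hl => Finset.sum_congr rfl fun r hr => by
        rw [hval l hl r hr]).trans h
    rw [h']
    have h0 : ∀ M, ex M (fun _ => 0) = 0 := fun M => by simp [ex]
    have hhalf : ∀ M, ex M (fun t => greedy t / 2) = ex M greedy / 2 := fun M => by
      have := ex_mul M (1 / 2) greedy
      rw [show (fun t => greedy t / 2) = fun t => (1 / 2) * greedy t by funext t; ring, this]
      ring
    rcases lt_trichotomy ij.2 ij.1 with hlt | heq | hgt
    · simp only [hlt, if_true, h0, max_eq_left hlt.le]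
      ring
    · simp only [heq, lt_irrefl, if_false, max_self, hhalf]
      ring
    · have hn : ¬ ij.2 < ij.1 := by omega
      simp only [hn, if_false, hgt, if_true, h0, max_eq_right hgt.le]
      ring
  have h9 : ∑ ij ∈ HasAntidiagonal.antidiagonal N, (q (N + 2) (ij.1 + 1) +
      q (N + 2) (ij.1 + 1) * B (max ij.1 ij.2)) = B (N + 1) := by
    rw [h1]
    refine Finset.sum_congr rfl fun ij _ => ?_
    ring
  rw [Finset.sum_add_distrib, q_sum] at h9
  exact h9.symm

end Pool.Agent.Q217.DTCS
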